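import Pool.Agent.Helper76.CY.Lin

/-!
# CY-3: a cyclic multiplicative relation
-/

set_option autoImplicit false

namespace Pool.Agent.Helper59.CY

open Polynomial

theorem pow_eleven {ρ : Equiv.Perm (Fin 11)} (hρ : orderOf ρ = 11) : ρ ^ 11 = 1 := by
  have h := pow_orderOf_eq_one ρ
  rwa [hρ] at h

theorem pow_mod_eleven {ρ : Equiv.Perm (Fin 11)} (hρ : orderOf ρ = 11) (i : ℕ) :
    ρ ^ (i % 11) = ρ ^ i := by
  conv_rhs => rw [← Nat.div_add_mod i 11, pow_add, pow_mul, pow_eleven hρ, one_pow, one_mul]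

/-- A permutation of order 11 of 11 points is a cycle: the powers reach every point from `0`. -/
theorem orbit_bij (ρ : Equiv.Perm (Fin 11)) (hρ : orderOf ρ = 11) :
    Function.Bijective (fun k : Fin 11 => (ρ ^ (k : ℕ)) 0) := by
  rw [← Finite.surjective_iff_bijective]
  have hcyc : ρ.IsCycle := Equiv.Perm.isCycle_of_prime_order' (by rw [hρ]; norm_num)
    (by rw [hρ, Fintype.card_fin]; norm_num)
  have hsupp : ρ.support = Finset.univ := by
    apply Finset.eq_univ_of_card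
    rw [← hcyc.orderOf, hρ, Fintype.card_fin]
  intro y
  have hne : ∀ z, ρ z ≠ z := fun z =>
    Equiv.Perm.mem_support.1 (by rw [hsupp]; exact Finset.mem_univ z)
  obtain ⟨i, hi⟩ := hcyc.exists_pow_eq (hne 0) (hne y)
  refine ⟨⟨i % 11, Nat.mod_lt _ (by norm_num)⟩, ?_⟩
  rw [← hi]
  show (ρ ^ (i % 11)) 0 = (ρ ^ i) 0
  rw [pow_mod_eleven hρ]

/-- The shift of sequences. -/
def shiftMap (A : Type*) [AddCommGroup A] : (ℕ → A) →ₗ[ℤ] (ℕ → A) where
  toFun s := fun j => s (j + 1)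
  map_add' _ _ := rfl
  map_smul' _ _ := rfl

theorem shiftMap_pow {A : Type*} [AddCommGroup A] (k : ℕ) (s : ℕ → A) (j : ℕ) :
    ((shiftMap A) ^ k) s j = s (j + k) := by
  induction k generalizing s with
  | zero => rfl
  | succ k ih =>
    rw [pow_succ, Module.End.mul_apply, ih]
    rfl

theorem relation_pow_of
    (hbez : ∀ P : Polynomial ℤ, P ≠ 0 → P.natDegree ≤ 10 → P.eval 1 = 0 →
      ∃ (N : ℕ) (A B : Polynomial ℤ), 0 < N ∧
        A * P + B * (Polynomial.X ^ 11 - 1) = Polynomial.C (N : ℤ) * (Polynomial.X - 1))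
    {M : Type*} [Field M] (μ : Fin 11 → M) (h0 : ∀ i, μ i ≠ 0)
    (ρ : Equiv.Perm (Fin 11)) (hρ : orderOf ρ = 11)
    (hcl : ∀ a b : Fin 11 → ℕ, ∏ i, μ i ^ a i = ∏ i, μ i ^ b i →
      ∏ i, μ (ρ i) ^ a i = ∏ i, μ (ρ i) ^ b i)
    (a b : Fin 11 → ℕ) (hab : a ≠ b) (hsum : ∑ i, a i = ∑ i, b i)
    (hrel : ∏ i, μ i ^ a i = ∏ i, μ i ^ b i) :
    ∃ N : ℕ, 0 < N ∧ ∀ i j, μ i ^ N = μ j ^ N := by
  have hbij := orbit_bij ρ hρ
  -- iterated closure
  have hit : ∀ j : ℕ, ∏ i, μ ((ρ ^ j) i) ^ a i = ∏ i, μ ((ρ ^ j) i) ^ b i := by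
    intro j
    induction j with
    | zero => simpa using hrel
    | succ j ih =>
      have hre : ∀ c : Fin 11 → ℕ, ∏ i, μ ((ρ ^ j) i) ^ c i =
          ∏ i, μ i ^ c ((ρ ^ j).symm i) := by
        intro c
        rw [← Equiv.prod_comp (ρ ^ j) (fun i => μ i ^ c ((ρ ^ j).symm i))]
        simp
      have hre2 : ∀ c : Fin 11 → ℕ, ∏ i, μ (ρ i) ^ c ((ρ ^ j).symm i) =
          ∏ i, μ ((ρ ^ (j + 1)) i) ^ c i := by
        intro c
        rw [← Equiv.prod_comp (ρ ^ j) (fun i => μ (ρ i) ^ c ((ρ ^ j).symm i))]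
        refine Finset.prod_congr rfl fun i _ => ?_
        rw [Equiv.symm_apply_apply, pow_succ', Equiv.Perm.mul_apply]
      rw [hre, hre] at ih
      have := hcl _ _ ih
      rw [hre2, hre2] at this
      exact this
  -- the sequence of units
  let u : Fin 11 → Mˣ := fun i => Units.mk0 (μ i) (h0 i)
  let v : ℕ → Additive Mˣ := fun j => Additive.ofMul (u ((ρ ^ j) 0))
  let T := shiftMap (Additive Mˣ)
  have hv11 : (aeval T (X ^ 11 - 1 : ℤ[X])) v = 0 := by
    funext j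
    rw [map_sub, map_pow, aeval_X, map_one, LinearMap.sub_apply, Pi.sub_apply, shiftMap_pow,
      Module.End.one_apply]
    show Additive.ofMul (u ((ρ ^ (j + 11)) 0)) - Additive.ofMul (u ((ρ ^ j) 0)) = 0
    rw [pow_add, pow_eleven hρ, mul_one, sub_self]
  let P : ℤ[X] := ∑ k : Fin 11,
    C ((a ((ρ ^ (k : ℕ)) 0) : ℤ) - (b ((ρ ^ (k : ℕ)) 0) : ℤ)) * X ^ (k : ℕ)
  have hPv : (aeval T P) v = 0 := by
    funext j
    have h1 : (aeval T P) v j = ∑ k : Fin 11,
        ((a ((ρ ^ (k : ℕ)) 0) : ℤ) - (b ((ρ ^ (k : ℕ)) 0) : ℤ)) • v (j + k) := by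
      simp only [P, map_sum, map_mul, aeval_X_pow, aeval_C, LinearMap.sum_apply,
        Finset.sum_apply]
      refine Finset.sum_congr rfl fun k _ => ?_
      rw [Module.End.mul_apply, Module.algebraMap_end_apply, Pi.smul_apply, shiftMap_pow]
    rw [h1]
    have h2 : ∀ c : Fin 11 → ℕ, ∑ k : Fin 11, (c ((ρ ^ (k : ℕ)) 0) : ℤ) • v (j + k) =
        Additive.ofMul (∏ i, u ((ρ ^ j) i) ^ c i) := by
      intro c
      rw [ofMul_prod, ← hbij.sum_comp (fun i => Additive.ofMul (u ((ρ ^ j) i) ^ c i))]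
      refine Finset.sum_congr rfl fun k _ => ?_
      show (c ((ρ ^ (k : ℕ)) 0) : ℤ) • Additive.ofMul (u ((ρ ^ (j + k)) 0)) = _
      rw [natCast_zsmul, ← ofMul_pow, pow_add, Equiv.Perm.mul_apply]
    simp only [sub_smul, Finset.sum_sub_distrib]
    rw [h2, h2, Pi.zero_apply, sub_eq_zero]
    congr 1
    ext
    have := hit j
    simpa [u] using this
  have hP0 : P ≠ 0 := by
    intro hP
    apply hab
    funext i
    obtain ⟨k, hk⟩ := hbij.2 i
    have h3 : P.coeff (k : ℕ) = (a i : ℤ) - (b i : ℤ) := by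
      simp only [P, finsetSum_coeff, coeff_C_mul, coeff_X_pow]
      rw [Finset.sum_eq_single k]
      · rw [if_pos rfl, mul_one]
        rw [← hk]
      · intro l _ hl
        rw [if_neg (fun h => hl (Fin.ext h.symm)), mul_zero]
      · intro h
        exact absurd (Finset.mem_univ k) h
    rw [hP, coeff_zero] at h3
    omega
  have hPdeg : P.natDegree ≤ 10 := by
    refine natDegree_sum_le_of_forall_le _ _ fun k _ => ?_
    refine (natDegree_C_mul_X_pow_le _ _).trans ?_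
    have := k.isLt
    omega
  have hP1 : P.eval 1 = 0 := by
    simp only [P, eval_finsetSum, eval_mul, eval_C, eval_pow, eval_X, one_pow, mul_one,
      Finset.sum_sub_distrib]
    rw [hbij.sum_comp (fun i => (a i : ℤ)), hbij.sum_comp (fun i => (b i : ℤ)), sub_eq_zero]
    exact_mod_cast hsum
  obtain ⟨N, A, B, hN, hAB⟩ := hbez P hP0 hPdeg hP1
  have hkey : (aeval T (C (N : ℤ) * (X - 1) : ℤ[X])) v = 0 := by
    rw [← hAB, map_add, map_mul, map_mul, LinearMap.add_apply, Module.End.mul_apply,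
      Module.End.mul_apply, hPv, hv11, map_zero, map_zero, add_zero]
  have hstep : ∀ j : ℕ, μ ((ρ ^ (j + 1)) 0) ^ N = μ ((ρ ^ j) 0) ^ N := by
    intro j
    have h4 := congrFun hkey j
    rw [map_mul, aeval_C, map_sub, aeval_X, map_one, Module.End.mul_apply,
      Module.algebraMap_end_apply, Pi.smul_apply, LinearMap.sub_apply, Pi.sub_apply,
      Module.End.one_apply] at h4
    have h5 : (N : ℤ) • (Additive.ofMul (u ((ρ ^ (j + 1)) 0)) -
        Additive.ofMul (u ((ρ ^ j) 0))) = 0 := h4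
    rw [zsmul_sub, sub_eq_zero, natCast_zsmul, natCast_zsmul, ← ofMul_pow, ← ofMul_pow] at h5
    have h6 := congrArg (fun z : Mˣ => (z : M)) (Additive.ofMul.injective h5)
    simpa [u] using h6
  have hall : ∀ j : ℕ, μ ((ρ ^ j) 0) ^ N = μ 0 ^ N := by
    intro j
    induction j with
    | zero => simp
    | succ j ih => rw [hstep, ih]
  refine ⟨N, hN, fun i j => ?_⟩
  obtain ⟨k, rfl⟩ := hbij.2 i
  obtain ⟨l, rfl⟩ := hbij.2 j
  exact (hall _).trans (hall _).symm

end Pool.Agent.Helper59.CY
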